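import Mathlib
import Pool.Agent.Q321.SIC.WH

/-!
# The Hilbert function of maximal equiangular tight frames and of Weyl-Heisenberg orbits

Let `k = d² - h(3)` be the failure of the `d²` points of a maximal ETF to impose independent
conditions on cubic forms. The points always impose independent conditions in degrees `m ≥ 4`, and
`(d + 3) k ≤ d (d - 1)`. Two unitary symmetries of the set of lines with `U V = ζ V U`, `ζ` of order
`n`, force `n ∣ 3 k`; for an orbit of the Weyl-Heisenberg group over a finite abelian group `A` of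
order `d` the order of `3 A` divides `k`. So `k = 0` for all such orbits if `3` does not divide `d`.
-/

set_option autoImplicit false

namespace Pool.Agent.Results.MP_d0f9e0_co.CubicConditions

/-- `x` is a maximal equiangular tight frame: `d²` unit vectors in a `d`-dimensional space `ℂ^ι`
whose pairwise inner products all have modulus `1/√(d+1)`, where `d = |ι|`. -/
def IsMaximalETF {ι κ : Type} [Fintype ι] [Fintype κ] (x : κ → EuclideanSpace ℂ ι) : Prop :=
  Fintype.card κ = Fintype.card ι ^ 2 ∧ (∀ i, ‖x i‖ = 1) ∧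
    ∀ i j, i ≠ j → ‖inner ℂ (x i) (x j)‖ = 1 / Real.sqrt ((Fintype.card ι : ℝ) + 1)

/-- Evaluation of polynomials at the vectors `x i`. -/
noncomputable def evaluation {ι κ : Type} [Fintype ι] (x : κ → EuclideanSpace ℂ ι) :
    MvPolynomial ι ℂ →ₗ[ℂ] (κ → ℂ) :=
  LinearMap.pi fun i => (MvPolynomial.aeval (fun a => x i a)).toLinearMap

/-- The Hilbert function of the points of projective space given by the vectors `x i`: the
dimension of the space of the value vectors `(f(x i))_i` of all homogeneous polynomials `f` of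
degree `m`, that is, the number of conditions which the points impose on forms of degree `m`. -/
noncomputable def hilbert {ι κ : Type} [Fintype ι] (x : κ → EuclideanSpace ℂ ι) (m : ℕ) : ℕ :=
  Module.finrank ℂ (Submodule.map (evaluation x) (MvPolynomial.homogeneousSubmodule ι ℂ m))

/-- The unitary map `U` is a symmetry of the set of the lines spanned by the vectors `x i`. -/
def IsSymmetry {ι κ : Type} [Fintype ι] (x : κ → EuclideanSpace ℂ ι)
    (U : EuclideanSpace ℂ ι ≃ₗᵢ[ℂ] EuclideanSpace ℂ ι) : Prop :=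
  ∀ i, ∃ (j : κ) (c : ℂ), U (x i) = c • x j

/-- The orbit of `ψ` under the Weyl-Heisenberg group over the finite abelian group `A`: the vectors
`(a, χ) ↦ (χ(j) ψ(j - a))_{j ∈ A}`, for `a` in `A` and the characters `χ` of `A`. -/
noncomputable def orbit {A : Type} [AddCommGroup A] [Fintype A] (ψ : EuclideanSpace ℂ A)
    (p : A × AddChar A ℂ) : EuclideanSpace ℂ A :=
  WithLp.toLp 2 fun j => p.2 j * ψ (j - p.1)

theorem hilb_le {ι κ : Type} [Fintype ι] [Fintype κ] (x : κ → EuclideanSpace ℂ ι) (m : ℕ) :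
    hilbert x m + Module.finrank ℂ (Pool.Agent.Q321.SIC.Rel x m) = Fintype.card κ :=
  Pool.Agent.Q321.SIC.hilb_add_rel x m

theorem bound {ι κ : Type} [Fintype ι] [Fintype κ] {x : κ → EuclideanSpace ℂ ι}
    (hx : IsMaximalETF x) (m : ℕ) :
    (Module.finrank ℂ (Pool.Agent.Q321.SIC.Rel x m) : ℝ) *
      (1 + ((Fintype.card ι : ℝ) ^ 2 - 1) * (1 / ((Fintype.card ι : ℝ) + 1) ^ m)) ≤
      (Fintype.card ι : ℝ) ^ 2 * (((Fintype.card ι : ℝ) ^ 2 - 1) *
        (1 / ((Fintype.card ι : ℝ) + 1) ^ m)) := by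
  classical
  obtain ⟨h0, h1, h2⟩ := hx
  have h := Pool.Agent.Q321.SIC.rel_bound h1 (ε := 1 / ((Fintype.card ι : ℝ) + 1) ^ m) m (by
    intro i j hij
    rw [norm_pow, h2 i j hij, ← pow_mul, mul_comm m 2, pow_mul, div_pow,
      Real.sq_sqrt (by positivity), one_pow, div_pow, one_pow]) (by positivity)
  rw [h0] at h
  push_cast at h
  exact h

theorem bound3 {ι κ : Type} [Fintype ι] [Fintype κ] {x : κ → EuclideanSpace ℂ ι}
    (hx : IsMaximalETF x) :
    (Fintype.card ι + 3) * Module.finrank ℂ (Pool.Agent.Q321.SIC.Rel x 3) ≤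
      Fintype.card ι * (Fintype.card ι - 1) := by
  have h := bound hx 3
  have h0 := hx.1
  set d := Fintype.card ι with hd
  set k := Module.finrank ℂ (Pool.Agent.Q321.SIC.Rel x 3) with hk
  rcases Nat.eq_zero_or_pos d with hd0 | hd0
  · have h3 := hilb_le x 3
    rw [h0, hd0] at h3
    have : k = 0 := by omega
    rw [this, hd0]
  · have hdr : (1 : ℝ) ≤ d := by exact_mod_cast hd0
    have h3 : (k : ℝ) * (((d : ℝ) + 1) ^ 3 + ((d : ℝ) ^ 2 - 1)) ≤ (d : ℝ) ^ 2 * ((d : ℝ) ^ 2 - 1) := by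
      have hp : (0 : ℝ) < ((d : ℝ) + 1) ^ 3 := by positivity
      have h4 := mul_le_mul_of_nonneg_right h hp.le
      have e1 : (k : ℝ) * (1 + ((d : ℝ) ^ 2 - 1) * (1 / ((d : ℝ) + 1) ^ 3)) * ((d : ℝ) + 1) ^ 3 =
          (k : ℝ) * (((d : ℝ) + 1) ^ 3 + ((d : ℝ) ^ 2 - 1)) := by
        field_simp
      have e2 : (d : ℝ) ^ 2 * (((d : ℝ) ^ 2 - 1) * (1 / ((d : ℝ) + 1) ^ 3)) * ((d : ℝ) + 1) ^ 3 =
          (d : ℝ) ^ 2 * ((d : ℝ) ^ 2 - 1) := by
        field_simp
      rw [e1, e2] at h4
      exact h4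
    have h5 : ((d : ℝ) * ((d : ℝ) + 1)) * ((k : ℝ) * ((d : ℝ) + 3)) ≤
        ((d : ℝ) * ((d : ℝ) + 1)) * ((d : ℝ) * ((d : ℝ) - 1)) := by
      calc ((d : ℝ) * ((d : ℝ) + 1)) * ((k : ℝ) * ((d : ℝ) + 3))
          = (k : ℝ) * (((d : ℝ) + 1) ^ 3 + ((d : ℝ) ^ 2 - 1)) := by ring
        _ ≤ (d : ℝ) ^ 2 * ((d : ℝ) ^ 2 - 1) := h3
        _ = ((d : ℝ) * ((d : ℝ) + 1)) * ((d : ℝ) * ((d : ℝ) - 1)) := by ring
    have h6 := le_of_mul_le_mul_left h5 (by positivity)
    have h7 : (((d + 3) * k : ℕ) : ℝ) ≤ ((d * (d - 1) : ℕ) : ℝ) := by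
      push_cast [Nat.cast_sub hd0]
      linarith
    exact_mod_cast h7

/-- **Conditions imposed on forms by the points of a maximal equiangular tight frame.** -/
theorem result :
    (∀ (ι κ : Type) [Fintype ι] [Fintype κ] (x : κ → EuclideanSpace ℂ ι), IsMaximalETF x →
      (∀ m : ℕ, 4 ≤ m → hilbert x m = Fintype.card ι ^ 2) ∧
      (Fintype.card ι + 3) * (Fintype.card ι ^ 2 - hilbert x 3) ≤
        Fintype.card ι * (Fintype.card ι - 1) ∧
      ∀ (U V : EuclideanSpace ℂ ι ≃ₗᵢ[ℂ] EuclideanSpace ℂ ι) (ζ : ℂ) (n : ℕ),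
        IsPrimitiveRoot ζ n → IsSymmetry x U → IsSymmetry x V →
        (∀ v, U (V v) = ζ • V (U v)) → n ∣ 3 * (Fintype.card ι ^ 2 - hilbert x 3)) ∧
    ∀ (A : Type) [AddCommGroup A] [Fintype A] (ψ : EuclideanSpace ℂ A), IsMaximalETF (orbit ψ) →
      Nat.card (nsmulAddMonoidHom (α := A) 3).range ∣
        Fintype.card A ^ 2 - hilbert (orbit ψ) 3 ∧
      (¬ 3 ∣ Fintype.card A → hilbert (orbit ψ) 3 = Fintype.card A ^ 2) := by
  refine ⟨?_, ?_⟩
  · intro ι κ _ _ x hx
    have h0 := hx.1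
    have hk : ∀ m, Fintype.card ι ^ 2 - hilbert x m =
        Module.finrank ℂ (Pool.Agent.Q321.SIC.Rel x m) := by
      intro m
      have := hilb_le x m
      rw [h0] at this
      omega
    refine ⟨?_, ?_, ?_⟩
    · intro m hm
      have h := bound hx m
      have h3 := hilb_le x m
      rw [h0] at h3
      set d := Fintype.card ι with hd
      set k := Module.finrank ℂ (Pool.Agent.Q321.SIC.Rel x m) with hk'
      suffices hs : k = 0 by omega
      rcases Nat.eq_zero_or_pos d with hd0 | hd0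
      · rw [hd0] at h3; omega
      have hdr : (1 : ℝ) ≤ d := by exact_mod_cast hd0
      have h4 : ((d : ℝ) + 1) ^ 4 ≤ ((d : ℝ) + 1) ^ m := pow_le_pow_right₀ (by linarith) hm
      have h5 : (d : ℝ) ^ 2 * (((d : ℝ) ^ 2 - 1) * (1 / ((d : ℝ) + 1) ^ m)) < 1 := by
        rw [mul_one_div, ← mul_div_assoc, div_lt_one (by positivity)]
        have h6 : (d : ℝ) ^ 2 * ((d : ℝ) ^ 2 - 1) < ((d : ℝ) + 1) ^ 4 := by
          nlinarith [sq_nonneg (d : ℝ)]
        linarith
      have h7 : (0 : ℝ) ≤ ((d : ℝ) ^ 2 - 1) * (1 / ((d : ℝ) + 1) ^ m) :=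
        mul_nonneg (by nlinarith) (by positivity)
      have h8 : (k : ℝ) < 1 := by
        have h9 : (k : ℝ) * 1 ≤ (k : ℝ) * (1 + ((d : ℝ) ^ 2 - 1) * (1 / ((d : ℝ) + 1) ^ m)) :=
          mul_le_mul_of_nonneg_left (by linarith) (Nat.cast_nonneg k)
        linarith
      have h10 : k < 1 := by exact_mod_cast h8
      omega
    · rw [hk 3]
      exact bound3 hx
    · intro U V ζ n hζ hU hV h
      rw [hk 3]
      obtain ⟨_, h1, h2⟩ := hx
      refine Pool.Agent.Q321.SIC.dvd_of_pair h1 ?_ U V hU hV hζ h 3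
      intro i j hij
      rw [h2 i j hij, div_lt_one (Real.sqrt_pos.2 (by positivity))]
      have hpos : 0 < Fintype.card ι := by
        rcases Nat.eq_zero_or_pos (Fintype.card ι) with hz | hz
        · rw [hz] at h0
          exact (Fintype.card_eq_zero_iff.1 (by simpa using h0)).elim i
        · exact hz
      rw [Real.lt_sqrt (by norm_num)]
      have : (1 : ℝ) ≤ Fintype.card ι := by exact_mod_cast hpos
      linarith
  · intro A _ _ ψ hx
    have h0 := hx.1
    have hk : Fintype.card A ^ 2 - hilbert (orbit ψ) 3 =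
        Module.finrank ℂ (Pool.Agent.Q321.SIC.Rel (orbit ψ) 3) := by
      have := hilb_le (orbit ψ) 3
      rw [h0] at this
      omega
    have hdvd : Nat.card (nsmulAddMonoidHom (α := A) 3).range ∣
        Fintype.card A ^ 2 - hilbert (orbit ψ) 3 := by
      rw [hk]
      exact Pool.Agent.Q321.SIC.card_dvd_rel ψ 3
    refine ⟨hdvd, ?_⟩
    intro h3
    have htop : (nsmulAddMonoidHom (α := A) 3).range = ⊤ := by
      rw [AddMonoidHom.range_eq_top]
      have hc : (Nat.card A).Coprime 3 := by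
        rw [Nat.card_eq_fintype_card, Nat.coprime_comm]
        exact (Nat.Prime.coprime_iff_not_dvd Nat.prime_three).2 h3
      exact (nsmulCoprime hc).surjective
    rw [htop, AddSubgroup.card_top, Nat.card_eq_fintype_card, hk] at hdvd
    have hb := bound3 hx
    have hle := hilb_le (orbit ψ) 3
    rw [h0] at hle
    set d := Fintype.card A with hd
    set k := Module.finrank ℂ (Pool.Agent.Q321.SIC.Rel (orbit ψ) 3) with hk'
    have hdpos : 0 < d := Fintype.card_pos
    rcases Nat.eq_zero_or_pos k with hz | hz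
    · omega
    · exfalso
      have h4 := Nat.le_of_dvd hz hdvd
      have h5 : (d + 3) * d ≤ d * (d - 1) := (Nat.mul_le_mul_left _ h4).trans hb
      have h6 : d * (d - 1) ≤ d * d := Nat.mul_le_mul_left _ (Nat.sub_le _ _)
      nlinarith

end Pool.Agent.Results.MP_d0f9e0_co.CubicConditions
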