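import Mathlib
import Pool.Agent.Q240.SIC.ShortPrime

/-!
# Weighted complex projective 2-designs with nearly the minimal number of points
-/

set_option autoImplicit false

namespace Pool.Agent.Results.MP_d0f9e0_co.NearMinimalDesigns

/-- `x` is a maximal equiangular tight frame in `ℂ^d`: `d²` unit vectors whose pairwise inner
products all have modulus `1/√(d+1)`. -/
def IsMaximalETF (d : ℕ) (x : Fin (d ^ 2) → EuclideanSpace ℂ (Fin d)) : Prop :=
  (∀ i, ‖x i‖ = 1) ∧ ∀ i j, i ≠ j → ‖inner ℂ (x i) (x j)‖ = 1 / Real.sqrt ((d : ℝ) + 1)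

/-- The unit vectors `x_1, …, x_N` of `ℂ^d` with the positive weights `w_i` form a weighted complex
projective 2-design: `∑ w_i (x_i x_i^*) ⊗ (x_i x_i^*)` is the identity plus the swap of `ℂ^d ⊗ ℂ^d`
(in coordinates; so the sum of the weights is `d² + d`). -/
def IsWeightedDesign (d N : ℕ) (x : Fin N → EuclideanSpace ℂ (Fin d)) (w : Fin N → ℝ) : Prop :=
  (∀ i, ‖x i‖ = 1) ∧ (∀ i, 0 < w i) ∧
  ∀ a b c f : Fin d,
    ∑ i, (w i : ℂ) * (x i a * (starRingEnd ℂ) (x i b) * (x i c * (starRingEnd ℂ) (x i f))) =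
      (if a = b ∧ c = f then 1 else 0) + (if a = f ∧ c = b then 1 else 0)

/-- Weighted complex projective 2-designs of `N` points in `ℂ^d`, `d ≥ 1`.
* Always `N ≥ d²`, and `d²` unit vectors carry weights making them a design if and only if they
  form a maximal equiangular tight frame.
* There are constants `c, C > 0` such that for every `d ≥ 1` there is a design with
  `N ≤ (1 + C d^(-c)) d²` points, any two of whose weights have a ratio of at most
  `1 + C d^(-c)`. -/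
theorem result :
    (∀ (d N : ℕ) (x : Fin N → EuclideanSpace ℂ (Fin d)) (w : Fin N → ℝ), 1 ≤ d →
      IsWeightedDesign d N x w → d ^ 2 ≤ N) ∧
    (∀ (d : ℕ) (x : Fin (d ^ 2) → EuclideanSpace ℂ (Fin d)), 1 ≤ d →
      ((∃ w, IsWeightedDesign d (d ^ 2) x w) ↔ IsMaximalETF d x)) ∧
    ∃ c C : ℝ, 0 < c ∧ 0 < C ∧ ∀ d : ℕ, 1 ≤ d →
      ∃ (N : ℕ) (x : Fin N → EuclideanSpace ℂ (Fin d)) (w : Fin N → ℝ),
        IsWeightedDesign d N x w ∧ (N : ℝ) ≤ (1 + C * (d : ℝ) ^ (-c)) * (d : ℝ) ^ 2 ∧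
        ∀ i j, w i ≤ (1 + C * (d : ℝ) ^ (-c)) * w j := by
  refine ⟨fun d N x w hd h => ?_, fun d x hd => ⟨?_, fun h => ?_⟩, ?_⟩
  · exact Pool.Agent.Q240.SIC.card_ge hd (x := x) (w := w) h
  · rintro ⟨w, h⟩
    exact ⟨h.1, Pool.Agent.Q240.SIC.sic_of_design hd (x := x) (w := w) h⟩
  · exact ⟨_, Pool.Agent.Q240.SIC.design_of_sic hd h.1 h.2⟩
  · exact Pool.Agent.Q240.SIC.near_minimal

end Pool.Agent.Results.MP_d0f9e0_co.NearMinimalDesigns
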