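import Mathlib
import Pool.Agent.Q240.SIC.Moments

/-!
# The phases of the triple products of a maximal equiangular tight frame
-/

set_option autoImplicit false

namespace Pool.Agent.Results.MP_d0f9e0_co.PhaseEquidistribution

/-- `x` is a maximal equiangular tight frame in `ℂ^d`: `d²` unit vectors whose pairwise inner
products all have modulus `1/√(d+1)`. -/
def IsMaximalETF (d : ℕ) (x : Fin (d ^ 2) → EuclideanSpace ℂ (Fin d)) : Prop :=
  (∀ i, ‖x i‖ = 1) ∧ ∀ i j, i ≠ j → ‖inner ℂ (x i) (x j)‖ = 1 / Real.sqrt ((d : ℝ) + 1)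

/-- The phase of three lines: the triple product `⟨x_i,x_j⟩⟨x_j,x_k⟩⟨x_k,x_i⟩` multiplied by
`√(d+1)³`, which is a complex number of modulus one when `i, j, k` are distinct. -/
noncomputable def phase {d : ℕ} (x : Fin (d ^ 2) → EuclideanSpace ℂ (Fin d))
    (i j k : Fin (d ^ 2)) : ℂ :=
  ((Real.sqrt ((d : ℝ) + 1) : ℝ) : ℂ) ^ 3 *
    (inner ℂ (x i) (x j) * inner ℂ (x j) (x k) * inner ℂ (x k) (x i))

/-- the ordered triples of distinct indices -/
def triples (d : ℕ) : Finset (Fin (d ^ 2) × Fin (d ^ 2) × Fin (d ^ 2)) :=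
  Finset.univ.filter fun t => t.1 ≠ t.2.1 ∧ t.2.1 ≠ t.2.2 ∧ t.2.2 ≠ t.1

/-- the indices different from `i` and `j` -/
def others {d : ℕ} (i j : Fin (d ^ 2)) : Finset (Fin (d ^ 2)) :=
  Finset.univ.filter fun k => k ≠ i ∧ k ≠ j

/-- **The phases of a maximal equiangular tight frame are equidistributed to third order.**
Let `x` be a maximal ETF in `ℂ^d`, `d ≥ 2` (no symmetry is assumed).
* The average of the `m`-th powers of the phases of all triples is at most `4/√d` in absolute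
  value, for `m = 1, 2, 3`.
* Let `u` be a complex number of modulus one and `0 < c ≤ 1`. The proportion of the triples whose
  phase `p` satisfies `Re (ū p) > c` is at least
  `((1 - 2c²)/(4c) - (3 + 1/c + 1/(4c²))/√d) / (1 + 1/(2c))²`. So for large `d` every arc longer
  than a quarter of the circle contains a positive proportion of the phases.
* For every pair `i ≠ j` and `0 ≤ c ≤ 1`, at least
  `((1/2 - c)(d² - 2) - √(d+1) (d - 2) - 1) / 2` indices `k` satisfy
  `Re (ū phase x i j k) > c`. So for large `d` every arc longer than a third of the circle contains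
  a positive proportion of the phases at each pair. -/
theorem result (d : ℕ) (hd : 2 ≤ d) (x : Fin (d ^ 2) → EuclideanSpace ℂ (Fin d))
    (hx : IsMaximalETF d x) :
    (∀ m : ℕ, 1 ≤ m → m ≤ 3 → ‖∑ t ∈ triples d, phase x t.1 t.2.1 t.2.2 ^ m‖ ≤
      4 / Real.sqrt d * (triples d).card) ∧
    (∀ u : ℂ, ‖u‖ = 1 → ∀ c : ℝ, 0 < c → c ≤ 1 →
      ((1 - 2 * c ^ 2) / (4 * c) - (3 + 1 / c + 1 / (4 * c ^ 2)) / Real.sqrt d) *
        (triples d).card ≤
      (1 + 1 / (2 * c)) ^ 2 * ((triples d).filter fun t =>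
        c < ((starRingEnd ℂ) u * phase x t.1 t.2.1 t.2.2).re).card) ∧
    (∀ i j, i ≠ j → ∀ u : ℂ, ‖u‖ = 1 → ∀ c : ℝ, 0 ≤ c → c ≤ 1 →
      (1 / 2 - c) * ((d : ℝ) ^ 2 - 2) - (Real.sqrt ((d : ℝ) + 1) * (d - 2) + 1) ≤
      2 * ((others i j).filter fun k => c < ((starRingEnd ℂ) u * phase x i j k).re).card) := by
  classical
  obtain ⟨h1, h2⟩ := hx
  have hd0 : 0 < d := by omega
  have hdr : (2 : ℝ) ≤ d := by exact_mod_cast hd
  have hn : 2 ≤ d ^ 2 := by nlinarith
  set s := Real.sqrt ((d : ℝ) + 1) with hs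
  have hs0 : 0 < s := Real.sqrt_pos.mpr (by positivity)
  have hs2 : s ^ 2 = (d : ℝ) + 1 := Real.sq_sqrt (by positivity)
  set r := Real.sqrt (d : ℝ) with hr
  have hr0 : 0 < r := Real.sqrt_pos.mpr (by positivity)
  have hr2 : r ^ 2 = (d : ℝ) := Real.sq_sqrt (by positivity)
  have hsr : s * r ≤ d + 1 / 2 := by
    nlinarith [sq_nonneg (s - r)]
  have hcard : ((triples d).card : ℝ) = (d : ℝ) ^ 2 * ((d : ℝ) ^ 2 - 1) * ((d : ℝ) ^ 2 - 2) := by
    have := Pool.Agent.Q240.SIC.Mom.card_T (d ^ 2) hn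
    push_cast at this
    exact this
  have hq1 : (0 : ℝ) ≤ (d : ℝ) ^ 2 - 1 := by nlinarith
  have hq2 : (0 : ℝ) ≤ (d : ℝ) ^ 2 - 2 := by nlinarith
  have hd4 : (0 : ℝ) ≤ (d : ℝ) ^ 2 * ((d : ℝ) ^ 2 - 1) := by positivity
  have S1 : ‖∑ t ∈ triples d, phase x t.1 t.2.1 t.2.2‖ ≤ (triples d).card / r := by
    have e := Pool.Agent.Q240.SIC.Mom.sum1 hd0 h1 h2
    change ∑ t ∈ triples d, phase x t.1 t.2.1 t.2.2 = _ at e
    rw [e, Complex.norm_real, Real.norm_of_nonneg (by
      apply mul_nonneg (by positivity)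
      apply mul_nonneg (mul_nonneg (by positivity) (by linarith)) (by linarith)), hcard,
      le_div_iff₀ hr0]
    have e1 : s * r * (d - 2) ≤ (d : ℝ) ^ 2 - 2 := by
      have : s * r * (d - 2) ≤ (d + 1 / 2) * (d - 2) :=
        mul_le_mul_of_nonneg_right hsr (by linarith)
      nlinarith
    calc s ^ 3 * ((d : ℝ) ^ 2 * (d - 1) * (d - 2)) * r =
        ((d : ℝ) ^ 2 * (s ^ 2 * (d - 1))) * (s * r * (d - 2)) := by ring
      _ = ((d : ℝ) ^ 2 * ((d : ℝ) ^ 2 - 1)) * (s * r * (d - 2)) := by rw [hs2]; ring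
      _ ≤ _ := mul_le_mul_of_nonneg_left e1 hd4
  have S2 : ‖∑ t ∈ triples d, phase x t.1 t.2.1 t.2.2 ^ 2‖ ≤ 2 * ((triples d).card / r) := by
    have e := Pool.Agent.Q240.SIC.Mom.sum2 hd0 h1 h2
    change ∑ t ∈ triples d, phase x t.1 t.2.1 t.2.2 ^ 2 = _ at e
    rw [e, Complex.norm_real, Real.norm_eq_abs, abs_mul, abs_of_nonneg hd4, hcard]
    have : |(-2 : ℝ)| = 2 := by norm_num
    rw [this]
    apply mul_le_mul_of_nonneg_left _ (by norm_num)
    rw [le_div_iff₀ hr0]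
    apply mul_le_mul_of_nonneg_left _ hd4
    have : r ≤ d := by nlinarith
    nlinarith
  have S3 : ‖∑ t ∈ triples d, phase x t.1 t.2.1 t.2.2 ^ 3‖ ≤ 4 * ((triples d).card / r) := by
    have e := Pool.Agent.Q240.SIC.Mom.sum3 hd0 h1 h2
    change ‖∑ t ∈ triples d, phase x t.1 t.2.1 t.2.2 ^ 3‖ ≤ _ at e
    refine e.trans ?_
    rw [hcard, mul_div_assoc', le_div_iff₀ hr0]
    have e1 : (d + 1) * (s * r) ≤ 4 * ((d : ℝ) ^ 2 - 2) := by
      have : (d + 1) * (s * r) ≤ ((d : ℝ) + 1) * (d + 1 / 2) :=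
        mul_le_mul_of_nonneg_left hsr (by linarith)
      nlinarith
    calc s ^ 3 * ((d : ℝ) ^ 2 * ((d : ℝ) ^ 2 - 1)) * r =
        ((d : ℝ) ^ 2 * ((d : ℝ) ^ 2 - 1)) * (s ^ 2 * (s * r)) := by ring
      _ = ((d : ℝ) ^ 2 * ((d : ℝ) ^ 2 - 1)) * ((d + 1) * (s * r)) := by rw [hs2]
      _ ≤ ((d : ℝ) ^ 2 * ((d : ℝ) ^ 2 - 1)) * (4 * ((d : ℝ) ^ 2 - 2)) :=
        mul_le_mul_of_nonneg_left e1 hd4
      _ = _ := by ring
  have hT : (0 : ℝ) ≤ (triples d).card / r := by positivity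
  refine ⟨?_, ?_, ?_⟩
  · intro m hm1 hm3
    have e : 4 / r * ((triples d).card : ℝ) = 4 * ((triples d).card / r) := by ring
    rw [e]
    have hm : m = 1 ∨ m = 2 ∨ m = 3 := by omega
    rcases hm with rfl | rfl | rfl
    · simp only [pow_one]
      linarith
    · linarith
    · exact S3
  · intro u hu c hc0 hc1
    have h := Pool.Agent.Q240.SIC.Mom.count_three (triples d)
      (fun t => phase x t.1 t.2.1 t.2.2) (by
        intro t ht
        obtain ⟨a, b, e⟩ := (Finset.mem_filter.1 ht).2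
        exact Pool.Agent.Q240.SIC.Mom.ph_norm h2 a b e) u hu c hc0 hc1 _ _ _ S1 S2 S3
    refine le_trans ?_ h
    have e1 : (0 : ℝ) < 1 / c := by positivity
    have e2 : (0 : ℝ) < 1 / (4 * c ^ 2) := by positivity
    have e3 : ((1 - 2 * c ^ 2) / (4 * c) - (3 + 1 / c + 1 / (4 * c ^ 2)) / r) *
        ((triples d).card : ℝ) = (1 - 2 * c ^ 2) / (4 * c) * (triples d).card -
        (3 + 1 / c + 1 / (4 * c ^ 2)) * ((triples d).card / r) := by ring
    rw [e3]
    nlinarith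
  · intro i j hij u hu c hc0 hc1
    have hK : ((others i j).card : ℝ) = (d : ℝ) ^ 2 - 2 := by
      have e := Pool.Agent.Q240.SIC.Mom.sum_K hij (fun _ => (1 : ℂ))
      change ∑ k ∈ others i j, (1 : ℂ) = _ at e
      simp only [Finset.sum_const, nsmul_eq_mul, mul_one, Finset.card_univ,
        Fintype.card_fin] at e
      have e' : (((others i j).card : ℝ) : ℂ) = (((d : ℝ) ^ 2 - 2 : ℝ) : ℂ) := by
        push_cast
        rw [e]
        push_cast
        ring
      exact Complex.ofReal_injective e'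
    have P1 : ‖∑ k ∈ others i j, phase x i j k‖ ≤ s * (d - 2) := by
      have e := Pool.Agent.Q240.SIC.Mom.pair1 hd0 h1 h2 hij
      change ∑ k ∈ others i j, phase x i j k = _ at e
      rw [e, Complex.norm_real, Real.norm_of_nonneg (mul_nonneg hs0.le (by linarith))]
    have P2 : ‖∑ k ∈ others i j, phase x i j k ^ 2‖ ≤ 2 := by
      have e := Pool.Agent.Q240.SIC.Mom.pair2 hd0 h1 h2 hij
      change ∑ k ∈ others i j, phase x i j k ^ 2 = _ at e
      rw [e]
      simp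
    have h := Pool.Agent.Q240.SIC.Mom.count_two (others i j) (fun k => phase x i j k) (by
        intro k hk
        obtain ⟨a, b⟩ := (Finset.mem_filter.1 hk).2
        exact Pool.Agent.Q240.SIC.Mom.ph_norm h2 hij b.symm a) u hu c hc0 hc1 _ _ P1 P2
    rw [hK] at h
    linarith

end Pool.Agent.Results.MP_d0f9e0_co.PhaseEquidistribution
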