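import Mathlib
import Pool.Agent.Q240.SIC.WHFin

/-!
# Weyl-Heisenberg orbits of `d²` vectors with overlaps `O(1/√d)` in every dimension
-/

set_option autoImplicit false

namespace Pool.Agent.Results.MP_d0f9e0_co.WeylHeisenbergCoherence

open scoped ComplexConjugate
open Pool.Agent.Q240.SIC.WH

/-- The Weyl-Heisenberg translate of the vector `ψ` of `ℂ^d` (coordinates indexed by `ℤ/d`) by
`q = (a, b)`: it has the coordinates `exp(2πi b j / d) ψ(j - a)`. -/
noncomputable def translate {d : ℕ} [NeZero d] (ψ : EuclideanSpace ℂ (ZMod d))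
    (q : ZMod d × ZMod d) : EuclideanSpace ℂ (ZMod d) :=
  WithLp.toLp 2 fun j => ZMod.stdAddChar (q.2 * j) * ψ (j - q.1)

theorem Y_zero {d : ℕ} [NeZero d] : Y (0 : ZMod d) = 1 := AddChar.map_zero_eq_one _

theorem Y_add {d : ℕ} [NeZero d] (a b : ZMod d) : Y (a + b) = Y a * Y b :=
  AddChar.map_add_eq_mul _ _ _

theorem conj_Y {d : ℕ} [NeZero d] (a : ZMod d) : conj (Y a) = Y (-a) :=
  (AddChar.map_neg_eq_conj _ _).symm

theorem inner_translate {d : ℕ} [NeZero d] (ψ : EuclideanSpace ℂ (ZMod d))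
    (q r : ZMod d × ZMod d) : inner ℂ (translate ψ q) (translate ψ r) =
      Y ((r.2 - q.2) * r.1) * Amb (fun j => ψ j) (q.1 - r.1) (r.2 - q.2) := by
  simp only [PiLp.inner_apply, RCLike.inner_apply, translate, Amb]
  rw [← Equiv.sum_comp (Equiv.addRight r.1), Finset.mul_sum]
  refine Finset.sum_congr rfl fun k _ => ?_
  simp only [Equiv.coe_addRight]
  change Y (r.2 * (k + r.1)) * ψ (k + r.1 - r.1) *
      conj (Y (q.2 * (k + r.1)) * ψ (k + r.1 - q.1)) = _
  rw [map_mul (starRingEnd ℂ), conj_Y, show k + r.1 - r.1 = k by ring,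
    show k + r.1 - q.1 = k - (q.1 - r.1) by ring]
  have h : Y ((r.2 - q.2) * r.1) * Y ((r.2 - q.2) * k) =
      Y (r.2 * (k + r.1)) * Y (-(q.2 * (k + r.1))) := by
    rw [← Y_add, ← Y_add]
    congr 1
    ring
  linear_combination -(ψ k * conj (ψ (k - (q.1 - r.1)))) * h

theorem norm_sq_eq {d : ℕ} [NeZero d] (ψ : EuclideanSpace ℂ (ZMod d)) :
    Amb (fun j => ψ j) 0 0 = ((‖ψ‖ ^ 2 : ℝ) : ℂ) := by
  rw [EuclideanSpace.norm_sq_eq]
  unfold Amb
  push_cast
  refine Finset.sum_congr rfl fun j _ => ?_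
  rw [sub_zero, zero_mul, Complex.mul_conj, Complex.normSq_eq_norm_sq]
  simp

theorem norm_translate {d : ℕ} [NeZero d] (ψ : EuclideanSpace ℂ (ZMod d)) (q : ZMod d × ZMod d) :
    ‖translate ψ q‖ = ‖ψ‖ := by
  have h := inner_translate ψ q q
  rw [sub_self, sub_self, zero_mul, Y_zero, one_mul, norm_sq_eq,
    inner_self_eq_norm_sq_to_K] at h
  have h2 : ‖translate ψ q‖ ^ 2 = ‖ψ‖ ^ 2 := by
    apply Complex.ofReal_injective
    rw [← h]
    push_cast
    rfl
  exact (pow_left_inj₀ (norm_nonneg _) (norm_nonneg _) two_ne_zero).1 h2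

theorem parseval_d {d : ℕ} [NeZero d] (c : ZMod d → ℂ) :
    ∑ b : ZMod d, ‖∑ j, c j * conj (Y (b * j))‖ ^ 2 = d * ∑ j, ‖c j‖ ^ 2 := by
  have h1 : ∑ b : ZMod d, (∑ j, c j * conj (Y (b * j))) * conj (∑ j, c j * conj (Y (b * j))) =
      (d : ℂ) * ∑ j, c j * conj (c j) := by
    have e1 : ∀ b : ZMod d, (∑ j, c j * conj (Y (b * j))) * conj (∑ j, c j * conj (Y (b * j))) =
        ∑ j, ∑ k, (c j * conj (c k)) * Y ((k - j) * b) := by
      intro b
      rw [map_sum, Finset.sum_mul_sum]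
      refine Finset.sum_congr rfl fun j _ => Finset.sum_congr rfl fun k _ => ?_
      rw [map_mul, Complex.conj_conj, show (k - j) * b = -(b * j) + b * k by ring,
        Y_add, conj_Y]
      ring
    rw [Finset.sum_congr rfl fun b _ => e1 b, Finset.sum_comm, Finset.mul_sum]
    refine Finset.sum_congr rfl fun j _ => ?_
    rw [Finset.sum_comm]
    simp_rw [← Finset.mul_sum, Y_sum]
    rw [Finset.sum_eq_single j]
    · rw [sub_self, if_pos rfl]; ring
    · intro k _ hk
      rw [if_neg (sub_ne_zero.2 hk), mul_zero]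
    · intro h
      exact absurd (Finset.mem_univ _) h
  simp_rw [Complex.mul_conj, Complex.normSq_eq_norm_sq] at h1
  have h2 : ((∑ b : ZMod d, ‖∑ j, c j * conj (Y (b * j))‖ ^ 2 : ℝ) : ℂ) =
      ((d * ∑ j, ‖c j‖ ^ 2 : ℝ) : ℂ) := by
    push_cast at h1 ⊢
    exact h1
  exact Complex.ofReal_injective h2

theorem tight {d : ℕ} [NeZero d] (ψ u : EuclideanSpace ℂ (ZMod d)) :
    ∑ q : ZMod d × ZMod d, ‖inner ℂ (translate ψ q) u‖ ^ 2 = d * ‖ψ‖ ^ 2 * ‖u‖ ^ 2 := by
  rw [Fintype.sum_prod_type]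
  have e1 : ∀ a : ZMod d, ∑ b : ZMod d, ‖inner ℂ (translate ψ (a, b)) u‖ ^ 2 =
      d * ∑ j, ‖ψ (j - a)‖ ^ 2 * ‖u j‖ ^ 2 := by
    intro a
    have e2 : ∀ b : ZMod d, inner ℂ (translate ψ (a, b)) u =
        ∑ j, (conj (ψ (j - a)) * u j) * conj (Y (b * j)) := by
      intro b
      simp only [PiLp.inner_apply, RCLike.inner_apply, translate]
      refine Finset.sum_congr rfl fun j _ => ?_
      rw [map_mul]
      ring
    simp_rw [e2]
    rw [parseval_d]
    congr 1
    refine Finset.sum_congr rfl fun j _ => ?_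
    rw [norm_mul, Complex.norm_conj, mul_pow]
  rw [Finset.sum_congr rfl fun a _ => e1 a, ← Finset.mul_sum, Finset.sum_comm, mul_assoc]
  congr 1
  rw [EuclideanSpace.norm_sq_eq u, Finset.mul_sum]
  refine Finset.sum_congr rfl fun j _ => ?_
  rw [← Finset.sum_mul]
  congr 1
  rw [EuclideanSpace.norm_sq_eq ψ]
  exact Equiv.sum_comp (Equiv.subLeft j) (fun k => ‖ψ k‖ ^ 2)

/-- **Weyl-Heisenberg orbits with small overlaps in every dimension.** There is a constant `C` such
that in every dimension `d ≥ 1` there is a vector `ψ` whose `d²` Weyl-Heisenberg translates are unit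
vectors forming an exactly tight frame of `ℂ^d`, any two of which have an inner product of modulus
at most `C/√(d+1)`. (For a maximal equiangular tight frame of this form the modulus is
`1/√(d+1)`.) -/
theorem result : ∃ C : ℝ, ∀ (d : ℕ) [NeZero d], ∃ ψ : EuclideanSpace ℂ (ZMod d),
    (∀ q, ‖translate ψ q‖ = 1) ∧
    (∀ q r, q ≠ r → ‖inner ℂ (translate ψ q) (translate ψ r)‖ ≤ C / Real.sqrt ((d : ℝ) + 1)) ∧
    ∀ u : EuclideanSpace ℂ (ZMod d),
      ∑ q : ZMod d × ZMod d, ‖inner ℂ (translate ψ q) u‖ ^ 2 = d * ‖u‖ ^ 2 := by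
  refine ⟨14400, fun d hne => ?_⟩
  have hd : 0 < d := Nat.pos_of_ne_zero (NeZero.ne d)
  have hdr : (1 : ℝ) ≤ d := by exact_mod_cast hd
  set t := Real.sqrt ((d : ℝ) + 1) with ht
  have ht0 : 0 < t := Real.sqrt_pos.mpr (by positivity)
  rcases lt_or_ge t 7200 with hsmall | hbig
  · refine ⟨EuclideanSpace.single 0 1, ?_, ?_, ?_⟩
    · intro q; rw [norm_translate]; simp
    · intro q r _
      refine (norm_inner_le_norm _ _).trans ?_
      have h1 : ‖(EuclideanSpace.single 0 1 : EuclideanSpace ℂ (ZMod d))‖ = 1 := by simp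
      rw [norm_translate, norm_translate, h1, mul_one, le_div_iff₀ ht0, one_mul]
      linarith
    · intro u
      rw [tight]
      simp
  · obtain ⟨p, hp, h1, h2⟩ := Nat.exists_prime_lt_and_le_two_mul (12 * d + 2) (by omega)
    have : Fact p.Prime := ⟨hp⟩
    have hp2 : p ≠ 2 := by omega
    have hodd : p % 2 = 1 := by
      rcases hp.eq_two_or_odd with h | h
      · exact absurd h hp2
      · exact h
    obtain ⟨κ, hκ⟩ : ∃ κ : ℤ, 2 * κ = p - 1 := ⟨((p : ℤ) - 1) / 2, by omega⟩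
    have hb := amb_bound (d := d) (p := p) (by omega) (by omega) κ hκ
    set s := Real.sqrt (d : ℝ) with hs
    have hs0 : 0 < s := Real.sqrt_pos.mpr (by linarith)
    have hs2 : s ^ 2 = d := Real.sq_sqrt (by linarith)
    have ht2 : t ^ 2 = d + 1 := Real.sq_sqrt (by linarith)
    have ht7 : 7200 ≤ t := hbig
    have hst : s ≤ t := Real.sqrt_le_sqrt (by linarith)
    have hts : t ^ 2 - 1 = s ^ 2 := by rw [ht2, hs2]; ring
    let φ : EuclideanSpace ℂ (ZMod d) := WithLp.toLp 2 (psi d p κ)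
    have hφ : ∀ a b : ZMod d, Amb (fun j => φ j) a b = Amb (psi d p κ) a b := fun _ _ => rfl
    -- the norm
    have hn : (d : ℝ) - 3600 * s ≤ ‖φ‖ ^ 2 := by
      have h3 := hb 0 0
      rw [if_pos ⟨rfl, rfl⟩, ← hφ, norm_sq_eq, ← Complex.ofReal_natCast, ← Complex.ofReal_sub,
        Complex.norm_real, Real.norm_eq_abs, abs_le] at h3
      linarith [h3.1]
    have hn2 : 7199 / 14400 * t ^ 2 ≤ ‖φ‖ ^ 2 := by
      have e1 : (d : ℝ) = t ^ 2 - 1 := by rw [ht2]; ring
      rw [e1] at hn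
      nlinarith
    have ht2pos : 0 < t ^ 2 := by positivity
    have hφpos : 0 < ‖φ‖ ^ 2 := by nlinarith
    have hφ0 : 0 < ‖φ‖ := by
      rcases (norm_nonneg φ).lt_or_eq with h | h
      · exact h
      · rw [← h] at hφpos; norm_num at hφpos
    have hlin : ∀ (c : ℂ) (q : ZMod d × ZMod d), translate (c • φ) q = c • translate φ q := by
      intro c q
      ext j
      simp only [translate, PiLp.smul_apply, smul_eq_mul]
      ring
    set c : ℂ := ((‖φ‖⁻¹ : ℝ) : ℂ) with hc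
    have hcn : ‖c‖ = ‖φ‖⁻¹ := by
      rw [hc, Complex.norm_real, Real.norm_of_nonneg (by positivity)]
    have hunit : ‖c • φ‖ = 1 := by
      rw [norm_smul, hcn, inv_mul_cancel₀ hφ0.ne']
    refine ⟨c • φ, fun q => by rw [norm_translate, hunit], ?_, fun u => ?_⟩
    · intro q r hqr
      rw [hlin, hlin, inner_smul_left, inner_smul_right, norm_mul, norm_mul, RCLike.norm_conj, hcn]
      have h3 : ‖inner ℂ (translate φ q) (translate φ r)‖ ≤ 3600 * s := by
        rw [inner_translate, norm_mul, Y_norm, one_mul, hφ]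
        have h4 := hb (q.1 - r.1) (r.2 - q.2)
        rw [if_neg, sub_zero] at h4
        · exact h4
        · rintro ⟨h5, h6⟩
          exact hqr (Prod.ext (sub_eq_zero.1 h5) (sub_eq_zero.1 h6).symm)
      have h4 : ‖φ‖⁻¹ * (‖φ‖⁻¹ * ‖inner ℂ (translate φ q) (translate φ r)‖) ≤
          ‖φ‖⁻¹ * (‖φ‖⁻¹ * (3600 * s)) := by gcongr
      refine h4.trans ?_
      have h5 : ‖φ‖⁻¹ * (‖φ‖⁻¹ * (3600 * s)) = 3600 * s / ‖φ‖ ^ 2 := by field_simp
      rw [h5, div_le_div_iff₀ hφpos ht0]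
      have h6 : s * t ≤ t ^ 2 := by nlinarith
      nlinarith
    · rw [tight, hunit]
      ring

end Pool.Agent.Results.MP_d0f9e0_co.WeylHeisenbergCoherence
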